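import Mathlib

set_option autoImplicit false

namespace X137.Ech

/-- the rank of a subgroup of a free group: the least cardinality of a generating set -/
noncomputable def rk {Γ : Type} [Group Γ] (H : Subgroup Γ) : ℕ∞ :=
  ⨅ (S : Set Γ) (_ : Subgroup.closure S = H), S.encard

/-- the subgroup `Γ_i` generated by the first `i` elements of an ordered free basis of `Γ` -/
def Fl {Γ : Type} [Group Γ] {n : ℕ} (b : FreeGroupBasis (Fin n) Γ) (i : ℕ) : Subgroup Γ :=
  Subgroup.closure {g | ∃ k : Fin n, (k : ℕ) < i ∧ b k = g}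

/-- echelon form with respect to an ordered free basis of `Γ` -/
def InEchelonForm {Γ : Type} [Group Γ] {n : ℕ} (b : FreeGroupBasis (Fin n) Γ) (H : Subgroup Γ) :
    Prop :=
  ∀ i : ℕ, i < n → rk (H ⊓ Fl b (i + 1)) ≤ rk (H ⊓ Fl b i) + 1

/-- `H` is an echelon subgroup of the free group `Γ` of finite rank -/
def IsEchelon {Γ : Type} [Group Γ] (H : Subgroup Γ) : Prop :=
  ∃ (n : ℕ) (b : FreeGroupBasis (Fin n) Γ), InEchelonForm b H

end X137.Ech
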