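import Mathlib

set_option autoImplicit false

/-!
Homomorphisms to a commutative group extend from `K ∩ L` to `K`, when `L` is generated by a part of
a free basis.
-/

namespace X137.Ech

universe u

variable {Γ : Type u} [Group Γ] {ι : Type} {A : Type} [CommGroup A]

theorem closure_basis (b : FreeGroupBasis ι Γ) : Subgroup.closure (Set.range b) = ⊤ := by
  have h2 : Set.range b = b.repr.symm.toMonoidHom '' Set.range FreeGroup.of := by
    rw [← Set.range_comp]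
    rfl
  rw [h2, ← MonoidHom.map_closure, FreeGroup.closure_range_of, ← MonoidHom.range_eq_map]
  exact MonoidHom.range_eq_top.2 b.repr.symm.surjective

section

variable (b : FreeGroupBasis ι Γ) (J : Set ι) (K : Subgroup Γ)

/-- the subgroup generated by a part of the basis -/
def LL : Subgroup Γ := Subgroup.closure (b '' J)

/-- the base coset -/
def ω₀ : Γ ⧸ K := ((1 : Γ) : Γ ⧸ K)

/-- the orbit of the base coset -/
def Orb (ω : Γ ⧸ K) : Prop := ∃ l ∈ LL b J, ((l : Γ) : Γ ⧸ K) = ω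

open Classical in
/-- representatives -/
noncomputable def sec (ω : Γ ⧸ K) : Γ := if h : Orb b J K ω then h.choose else 1

theorem sec_mem (ω : Γ ⧸ K) : sec b J K ω ∈ LL b J := by
  unfold sec
  split_ifs with h
  · exact h.choose_spec.1
  · exact one_mem _

theorem sec_eq {ω : Γ ⧸ K} (h : Orb b J K ω) : ((sec b J K ω : Γ) : Γ ⧸ K) = ω := by
  unfold sec
  rw [dif_pos h]
  exact h.choose_spec.2

theorem orb_smul {ω : Γ ⧸ K} (h : Orb b J K ω) {l : Γ} (hl : l ∈ LL b J) :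
    Orb b J K (l • ω) := by
  obtain ⟨m, hm, rfl⟩ := h
  exact ⟨l * m, mul_mem hl hm, rfl⟩

/-- the cocycle -/
theorem coc_mem {ω : Γ ⧸ K} (h : Orb b J K ω) {l : Γ} (hl : l ∈ LL b J) :
    (sec b J K (l • ω))⁻¹ * l * sec b J K ω ∈ K ⊓ LL b J := by
  refine ⟨?_, (LL b J).mul_mem ((LL b J).mul_mem ((LL b J).inv_mem (sec_mem _ _ _ _)) hl)
    (sec_mem _ _ _ _)⟩
  have h1 : ((sec b J K (l • ω) : Γ) : Γ ⧸ K) = ((l * sec b J K ω : Γ) : Γ ⧸ K) := by
    rw [sec_eq b J K (orb_smul b J K h hl)]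
    have h2 : ((l * sec b J K ω : Γ) : Γ ⧸ K) = l • ((sec b J K ω : Γ) : Γ ⧸ K) := rfl
    rw [h2, sec_eq b J K h]
  have h3 := QuotientGroup.eq.1 h1
  rw [← mul_assoc] at h3
  exact h3

variable (φ : Γ → A) (hφ : ∀ x ∈ K ⊓ LL b J, ∀ y ∈ K ⊓ LL b J, φ (x * y) = φ x * φ y)

open Classical in
/-- the values of the derivation on the basis -/
noncomputable def β (i : ι) (ω : Γ ⧸ K) : A :=
  if i ∈ J ∧ Orb b J K ω then φ ((sec b J K (b i • ω))⁻¹ * b i * sec b J K ω) else 1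

/-- the permutation attached to a basis element -/
noncomputable def pm (i : ι) : Equiv.Perm ((Γ ⧸ K) × A) where
  toFun p := (b i • p.1, β b J K φ i p.1 * p.2)
  invFun p := ((b i)⁻¹ • p.1, (β b J K φ i ((b i)⁻¹ • p.1))⁻¹ * p.2)
  left_inv p := by
    ext1
    · simp
    · simp
  right_inv p := by
    ext1
    · simp
    · simp

/-- the action of `Γ` -/
noncomputable def Θ : Γ →* Equiv.Perm ((Γ ⧸ K) × A) := b.lift (pm b J K φ)

theorem Θ_b (i : ι) (p : (Γ ⧸ K) × A) : Θ b J K φ (b i) p = (b i • p.1, β b J K φ i p.1 * p.2) := by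
  have h : Θ b J K φ (b i) = pm b J K φ i := by
    unfold Θ
    have := congrFun (b.lift.symm_apply_apply (pm b J K φ)) i
    exact this
  rw [h]
  rfl

theorem Θ_form (g : Γ) : ∃ γ : (Γ ⧸ K) → A, ∀ p, Θ b J K φ g p = (g • p.1, γ p.1 * p.2) := by
  have hg : g ∈ Subgroup.closure (Set.range b) := by rw [closure_basis]; trivial
  induction hg using Subgroup.closure_induction with
  | mem x hx =>
    obtain ⟨i, rfl⟩ := hx
    exact ⟨β b J K φ i, Θ_b b J K φ i⟩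
  | one => exact ⟨fun _ => 1, fun p => by simp⟩
  | mul x y _ _ hx hy =>
    obtain ⟨γ, hγ⟩ := hx
    obtain ⟨δ, hδ⟩ := hy
    refine ⟨fun ω => γ (y • ω) * δ ω, fun p => ?_⟩
    rw [map_mul, Equiv.Perm.mul_apply, hδ, hγ, mul_smul, mul_assoc]
  | inv x _ hx =>
    obtain ⟨γ, hγ⟩ := hx
    refine ⟨fun ω => (γ (x⁻¹ • ω))⁻¹, fun p => ?_⟩
    rw [map_inv, Equiv.Perm.inv_eq_iff_eq, hγ]
    ext1
    · simp
    · simp

include hφ in
theorem φ_one : φ 1 = 1 := by
  have h := hφ 1 (one_mem _) 1 (one_mem _)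
  rw [mul_one] at h
  exact left_eq_mul.1 h

include hφ in
theorem φ_inv {x : Γ} (hx : x ∈ K ⊓ LL b J) : φ x⁻¹ = (φ x)⁻¹ := by
  have h := hφ x hx x⁻¹ (inv_mem hx)
  rw [mul_inv_cancel, φ_one b J K φ hφ] at h
  exact eq_inv_of_mul_eq_one_right h.symm

include hφ in
theorem Θ_L (l : Γ) (hl : l ∈ LL b J) : ∀ ω, Orb b J K ω → ∀ q, Θ b J K φ l (ω, q) =
    (l • ω, φ ((sec b J K (l • ω))⁻¹ * l * sec b J K ω) * q) := by
  have hl' : l ∈ Subgroup.closure (b '' J) := hl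
  induction hl' using Subgroup.closure_induction with
  | mem x hx =>
    obtain ⟨i, hi, rfl⟩ := hx
    intro ω hω q
    rw [Θ_b]
    unfold β
    rw [if_pos ⟨hi, hω⟩]
  | one =>
    intro ω hω q
    rw [map_one, Equiv.Perm.one_apply, one_smul, mul_one, inv_mul_cancel, φ_one b J K φ hφ, one_mul]
  | mul x y hx' hy' hx hy =>
    intro ω hω q
    have hx1 : x ∈ LL b J := hx'
    have hy1 : y ∈ LL b J := hy'
    rw [map_mul, Equiv.Perm.mul_apply, hy hy1 ω hω q, hx hx1 _ (orb_smul b J K hω hy1), mul_smul,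
      ← mul_assoc, ← hφ _ (coc_mem b J K (orb_smul b J K hω hy1) hx1) _ (coc_mem b J K hω hy1)]
    congr 3
    group
  | inv x hx' hx =>
    intro ω hω q
    have hx1 : x ∈ LL b J := hx'
    have hω' : Orb b J K (x⁻¹ • ω) := orb_smul b J K hω (inv_mem hx1)
    rw [map_inv, Equiv.Perm.inv_eq_iff_eq, hx hx1 _ hω', smul_inv_smul]
    have h1 : (sec b J K (x⁻¹ • ω))⁻¹ * x⁻¹ * sec b J K ω =
        ((sec b J K ω)⁻¹ * x * sec b J K (x⁻¹ • ω))⁻¹ := by group
    have h2 := coc_mem b J K hω' hx1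
    rw [smul_inv_smul] at h2
    rw [h1, φ_inv b J K φ hφ h2, mul_inv_cancel_left]

include hφ in
/-- every homomorphism from `K ∩ L` to a commutative group extends to `K` -/
theorem extend : ∃ ψ : K →* A, ∀ (x : Γ) (hx : x ∈ K ⊓ LL b J), ψ ⟨x, hx.1⟩ = φ x := by
  have hfix : ∀ k : K, (k : Γ) • (ω₀ K) = ω₀ K := by
    intro k
    have h1 : (k : Γ) • (ω₀ K) = (((k : Γ) * 1 : Γ) : Γ ⧸ K) := rfl
    rw [h1, mul_one]
    exact (QuotientGroup.eq.2 (by rw [mul_one]; exact inv_mem k.2))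
  choose γ hγ using Θ_form b J K φ
  have hγm : ∀ k k' : K, γ (k * k' : Γ) (ω₀ K) = γ k (ω₀ K) * γ k' (ω₀ K) := by
    intro k k'
    have h1 := hγ (k * k' : Γ) (ω₀ K, 1)
    rw [map_mul, Equiv.Perm.mul_apply, hγ, hγ] at h1
    have h2 := congrArg Prod.snd h1
    simp only [mul_one] at h2
    rw [hfix k'] at h2
    exact h2.symm
  refine ⟨MonoidHom.mk' (fun k => γ k (ω₀ K)) hγm, fun x hx => ?_⟩
  have hω : Orb b J K (ω₀ K) := ⟨1, one_mem _, rfl⟩
  have h1 := Θ_L b J K φ hφ x hx.2 (ω₀ K) hω 1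
  rw [hγ] at h1
  have h2 := congrArg Prod.snd h1
  simp only [mul_one] at h2
  have h3 : x • (ω₀ K) = ω₀ K := hfix ⟨x, hx.1⟩
  rw [h3] at h2
  have hs : sec b J K (ω₀ K) ∈ K ⊓ LL b J := by
    refine ⟨?_, sec_mem _ _ _ _⟩
    have h4 := sec_eq b J K hω
    have h5 : ((sec b J K (ω₀ K) : Γ) : Γ ⧸ K) = ((1 : Γ) : Γ ⧸ K) := h4
    have h6 := QuotientGroup.eq.1 h5
    rw [mul_one] at h6
    exact K.inv_mem_iff.1 h6
  show γ x (ω₀ K) = φ x
  rw [h2, hφ _ (mul_mem (inv_mem hs) hx) _ hs, hφ _ (inv_mem hs) _ hx, φ_inv b J K φ hφ hs,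
    mul_comm, mul_inv_cancel_left]

end

end X137.Ech
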