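import Pool.Agent.X137.Ech.Main

set_option autoImplicit false

namespace X137.Ech

/-! ### the subgroup `K = H ∩ G` inside `G` -/

/-- the intersection, inside `G` -/
abbrev K : Subgroup G := H.subgroupOf G

theorem A_mem : A ∈ K := by
  change s * s ∈ H
  exact H.mul_mem (Subgroup.subset_closure (by simp)) (Subgroup.subset_closure (by simp))
theorem W_mem : W ∈ K := by
  change w ∈ H
  exact Subgroup.subset_closure (by simp)
theorem W'_mem : W' ∈ K := by
  change s * w * s⁻¹ ∈ H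
  have hs : s ∈ H := Subgroup.subset_closure (by simp)
  have hw : w ∈ H := Subgroup.subset_closure (by simp)
  exact H.mul_mem (H.mul_mem hs hw) (H.inv_mem hs)

theorem K_le : K ≤ Subgroup.closure {A, W, W'} := by
  intro g hg
  have h1 : (g : F) ∈ K0 := inter_le g hg g.2
  have h2 : K0 = (Subgroup.closure ({A, W, W'} : Set G)).map G.subtype := by
    rw [MonoidHom.map_closure]
    unfold K0
    congr 1
    rw [Set.image_insert_eq, Set.image_pair]
    rfl
  rw [h2] at h1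
  obtain ⟨g', hg', he⟩ := h1
  have : g' = g := Subtype.ext he
  rw [← this]
  exact hg'

theorem closure_ABC : Subgroup.closure ({A, B, C} : Set G) = ⊤ := by
  have h2 : G = (Subgroup.closure ({A, B, C} : Set G)).map G.subtype := by
    rw [MonoidHom.map_closure]
    conv_lhs => unfold G
    congr 1
    rw [Set.image_insert_eq, Set.image_pair]
    rfl
  rw [eq_top_iff]
  intro g _
  have h1 : (g : F) ∈ (Subgroup.closure ({A, B, C} : Set G)).map G.subtype := h2 ▸ g.2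
  obtain ⟨g', hg', he⟩ := h1
  have : g' = g := Subtype.ext he
  rw [← this]
  exact hg'

theorem G_fg : G.FG := by
  refine ⟨{s * s, t, s * t * s⁻¹}, ?_⟩
  unfold G
  simp

/-! ### `H` is echelon -/

theorem s_ne_one : s ≠ 1 := by
  intro h
  have h1 := congrArg par h
  rw [par_s] at h1
  have h2 : par (1 : F) = 1 := map_one par
  rw [h2] at h1
  revert h1
  decide

theorem H_echelon : IsEchelon H := by
  refine ⟨2, FreeGroupBasis.ofFreeGroup (Fin 2), ?_⟩
  have hs : s ∈ H := Subgroup.subset_closure (by simp)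
  have h1 : Fl (FreeGroupBasis.ofFreeGroup (Fin 2)) 1 = Subgroup.closure {s} := by
    unfold Fl
    congr 1
    ext g
    constructor
    · rintro ⟨k, hk, rfl⟩
      have : k = 0 := by
        ext
        simpa using hk
      subst this
      rfl
    · intro hg
      rw [Set.mem_singleton_iff] at hg
      exact ⟨0, by simp, hg.symm⟩
  have h1' : H ⊓ Fl (FreeGroupBasis.ofFreeGroup (Fin 2)) 1 = Subgroup.closure {s} := by
    rw [h1]
    apply inf_eq_right.2
    rw [Subgroup.closure_le]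
    intro x hx
    rw [Set.mem_singleton_iff] at hx
    rw [hx]
    exact hs
  intro i hi
  have hi' : i = 0 ∨ i = 1 := by omega
  rcases hi' with rfl | rfl
  · rw [Fl_zero, inf_bot_eq, rk_bot, zero_add, h1']
    refine (rk_closure_le _).trans ?_
    rw [Set.encard_singleton, zero_add]
  · rw [h1']
    have h2 : rk (H ⊓ Fl (FreeGroupBasis.ofFreeGroup (Fin 2)) (1 + 1)) ≤ 1 + 1 := by
      have : Fl (FreeGroupBasis.ofFreeGroup (Fin 2)) (1 + 1) = ⊤ :=
        Fl_top (FreeGroupBasis.ofFreeGroup (Fin 2))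
      rw [this, inf_top_eq]
      unfold H
      refine (rk_closure_le _).trans ?_
      refine (Set.encard_insert_le _ _).trans ?_
      rw [Set.encard_singleton]
    refine h2.trans ?_
    gcongr
    apply one_le_rk
    intro h
    rw [Subgroup.closure_eq_bot_iff] at h
    exact s_ne_one (h (Set.mem_singleton s))

/-! ### coordinates -/

theorem coords (ψ : K →* Multiplicative ℚ) (g : G) (hg : g ∈ K) : ∃ x y z : ℚ,
    (θ g).i = 0 ∧ (θ g).j = 0 ∧
    (θ g).u 0 = x + z * (-8) ∧ (θ g).u 1 = x + z * (-6) ∧ (θ g).u 2 = x + z * (-24) ∧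
    (θ g).v 0 = y * (-6) + z * 8 ∧ (θ g).v 1 = y * (-4) + z * 3 ∧
    (θ g).v 2 = y * (-12) + z * 24 ∧
    (ψ ⟨g, hg⟩).toAdd = x * (ψ ⟨A, A_mem⟩).toAdd + y * (ψ ⟨W, W_mem⟩).toAdd +
      z * (ψ ⟨W', W'_mem⟩).toAdd := by
  have key : ∀ g : G, g ∈ Subgroup.closure {A, W, W'} → ∃ (hg : g ∈ K) (x y z : ℚ),
    (θ g).i = 0 ∧ (θ g).j = 0 ∧
    (θ g).u 0 = x + z * (-8) ∧ (θ g).u 1 = x + z * (-6) ∧ (θ g).u 2 = x + z * (-24) ∧
    (θ g).v 0 = y * (-6) + z * 8 ∧ (θ g).v 1 = y * (-4) + z * 3 ∧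
    (θ g).v 2 = y * (-12) + z * 24 ∧
    (ψ ⟨g, hg⟩).toAdd = x * (ψ ⟨A, A_mem⟩).toAdd + y * (ψ ⟨W, W_mem⟩).toAdd +
      z * (ψ ⟨W', W'_mem⟩).toAdd := by
    intro g hg
    induction hg using Subgroup.closure_induction with
    | mem x hx =>
      simp only [Set.mem_insert_iff, Set.mem_singleton_iff] at hx
      rcases hx with rfl | rfl | rfl
      · refine ⟨A_mem, 1, 0, 0, ?_⟩
        rw [θ_A]
        simp [qa]
      · refine ⟨W_mem, 0, 1, 0, ?_⟩
        rw [θ_W]
        have e1 : Xc 2 = 2 := rfl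
        have e2 : Yc 2 = 5 := rfl
        have e3 : Xc 0 = 2 := rfl
        have e4 : Yc 0 = 3 := rfl
        have e5 : Xc 1 = 3 := rfl
        have e6 : Yc 1 = 2 := rfl
        simp only [e1, e2, e3, e4, e5, e6]
        norm_num
      · refine ⟨W'_mem, 0, 0, 1, ?_⟩
        rw [θ_W']
        have e1 : Xc 2 = 2 := rfl
        have e2 : Yc 2 = 5 := rfl
        have e3 : Xc 0 = 2 := rfl
        have e4 : Yc 0 = 3 := rfl
        have e5 : Xc 1 = 3 := rfl
        have e6 : Yc 1 = 2 := rfl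
        simp only [e1, e2, e3, e4, e5, e6]
        norm_num
    | one =>
      refine ⟨one_mem _, 0, 0, 0, ?_⟩
      have : (⟨1, one_mem K⟩ : K) = 1 := rfl
      rw [map_one, this, map_one]
      simp [one_i, one_j, one_u, one_v]
    | mul a b _ _ ha hb =>
      obtain ⟨ha0, x, y, z, h1, h2, h3, h4, h5, h6, h7, h8, h9⟩ := ha
      obtain ⟨hb0, x', y', z', h1', h2', h3', h4', h5', h6', h7', h8', h9'⟩ := hb
      refine ⟨mul_mem ha0 hb0, x + x', y + y', z + z', ?_⟩
      have : (⟨a * b, mul_mem ha0 hb0⟩ : K) = ⟨a, ha0⟩ * ⟨b, hb0⟩ := rfl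
      rw [map_mul, this, map_mul, toAdd_mul, h9, h9']
      simp only [mul_i, mul_j, mul_u, mul_v, h1, h2, h3, h4, h5, h6, h7, h8, h1', h2', h3', h4',
        h5', h6', h7', h8', mon_zero]
      refine ⟨by norm_num, by norm_num, ?_, ?_, ?_, ?_, ?_, ?_, ?_⟩ <;> ring
    | inv a _ ha =>
      obtain ⟨ha0, x, y, z, h1, h2, h3, h4, h5, h6, h7, h8, h9⟩ := ha
      refine ⟨inv_mem ha0, -x, -y, -z, ?_⟩
      have : (⟨a⁻¹, inv_mem ha0⟩ : K) = (⟨a, ha0⟩ : K)⁻¹ := rfl
      rw [map_inv, this, map_inv, toAdd_inv, h9]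
      simp only [inv_i, inv_j, inv_u, inv_v, h1, h2, h3, h4, h5, h6, h7, h8, neg_zero, mon_zero]
      refine ⟨trivial, trivial, ?_, ?_, ?_, ?_, ?_, ?_, ?_⟩ <;> ring
  obtain ⟨_, h⟩ := key g (K_le hg)
  exact h

/-! ### the ranks -/

theorem n_le {n : ℕ} (b : FreeGroupBasis (Fin n) G) : n ≤ 3 := by
  classical
  let M := Multiplicative (ZMod 2)
  let ev : (Fin n → M) → M × M × M := fun f => (b.lift f A, b.lift f B, b.lift f C)
  have hinj : Function.Injective ev := by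
    intro f g hfg
    have h1 : b.lift f = b.lift g := by
      apply MonoidHom.eq_of_eqOn_dense closure_ABC
      intro x hx
      simp only [Set.mem_insert_iff, Set.mem_singleton_iff] at hx
      rcases hx with rfl | rfl | rfl
      · exact congrArg Prod.fst hfg
      · exact congrArg (fun p => p.2.1) hfg
      · exact congrArg (fun p => p.2.2) hfg
    exact b.lift.injective h1
  have h2 := Fintype.card_le_of_injective ev hinj
  rw [Fintype.card_fun, Fintype.card_prod, Fintype.card_prod, Fintype.card_fin] at h2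
  have h3 : Fintype.card M = 2 := by decide
  rw [h3] at h2
  have h4 : 2 ^ n ≤ 2 ^ 3 := by simpa using h2
  exact (Nat.pow_le_pow_iff_right (by norm_num)).1 h4

theorem rk_K : 3 ≤ rk K := by
  refine le_iInf₂ fun S hS => ?_
  by_contra hcon
  rw [not_le] at hcon
  have h2 : S.encard ≤ 2 := by
    have h3 : S.encard < 2 + 1 := by
      refine hcon.trans_le ?_
      norm_num
    exact ENat.lt_add_one_iff (by simp) |>.1 h3
  have h3 : ∃ g1 ∈ K, ∃ g2 ∈ K, S ⊆ {g1, g2} := by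
    rcases S.eq_empty_or_nonempty with h | ⟨g1, hg1⟩
    · exact ⟨1, one_mem _, 1, one_mem _, by simp [h]⟩
    · have hSK : S ⊆ K := by
        rw [← hS]
        exact Subgroup.subset_closure
      have h4 : (S \ {g1}).encard ≤ 1 := by
        have h5 := Set.encard_sdiff_singleton_add_one hg1
        rw [← h5] at h2
        have h6 : (S \ {g1}).encard + 1 ≤ 1 + 1 := h2
        exact (ENat.add_le_add_iff_right (by simp)).1 h6
      rw [Set.encard_le_one_iff_eq] at h4
      rcases h4 with h4 | ⟨g2, h4⟩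
      · refine ⟨g1, hSK hg1, g1, hSK hg1, ?_⟩
        intro x hx
        by_contra hne
        have : x ∈ S \ {g1} := ⟨hx, fun h => hne (by
          rw [Set.mem_singleton_iff] at h
          simp [h])⟩
        rw [h4] at this
        exact this
      · refine ⟨g1, hSK hg1, g2, hSK ?_, ?_⟩
        · have : g2 ∈ S \ {g1} := by rw [h4]; rfl
          exact this.1
        · intro x hx
          by_cases hne : x = g1
          · simp [hne]
          · have : x ∈ S \ {g1} := ⟨hx, hne⟩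
            rw [h4, Set.mem_singleton_iff] at this
            simp [this]
  obtain ⟨g1, hg1, g2, hg2, hS2⟩ := h3
  have hz : ∀ g ∈ K, (θ g).i = 0 ∧ (θ g).j = 0 := by
    intro g hg
    obtain ⟨_, _, _, h1, h2, _⟩ := coords 1 g hg
    exact ⟨h1, h2⟩
  have key : ∀ g ∈ Subgroup.closure S, ∃ a c : ℚ,
      (θ g).i = 0 ∧ (θ g).j = 0 ∧
      (∀ k, (θ g).u k = a * (θ g1).u k + c * (θ g2).u k) ∧
      (∀ k, (θ g).v k = a * (θ g1).v k + c * (θ g2).v k) := by
    intro g hg
    induction hg using Subgroup.closure_induction with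
    | mem x hx =>
      have := hS2 hx
      simp only [Set.mem_insert_iff, Set.mem_singleton_iff] at this
      rcases this with rfl | rfl
      · exact ⟨1, 0, (hz _ hg1).1, (hz _ hg1).2, fun k => by ring, fun k => by ring⟩
      · exact ⟨0, 1, (hz _ hg2).1, (hz _ hg2).2, fun k => by ring, fun k => by ring⟩
    | one =>
      refine ⟨0, 0, ?_⟩
      rw [map_one]
      simp [one_i, one_j, one_u, one_v]
    | mul x y _ _ hx hy =>
      obtain ⟨a, c, h1, h2, h3, h4⟩ := hx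
      obtain ⟨a', c', h1', h2', h3', h4'⟩ := hy
      refine ⟨a + a', c + c', ?_⟩
      rw [map_mul]
      simp only [mul_i, mul_j, mul_u, mul_v, h1, h2, h1', h2', h3, h4, h3', h4', mon_zero]
      refine ⟨by norm_num, by norm_num, fun k => ?_, fun k => ?_⟩ <;> ring
    | inv x _ hx =>
      obtain ⟨a, c, h1, h2, h3, h4⟩ := hx
      refine ⟨-a, -c, ?_⟩
      rw [map_inv]
      simp only [inv_i, inv_j, inv_u, inv_v, h1, h2, h3, h4, neg_zero, mon_zero]
      refine ⟨trivial, trivial, fun k => ?_, fun k => ?_⟩ <;> ring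
  have hA := key A (hS ▸ A_mem)
  have hW := key W (hS ▸ W_mem)
  have hW' := key W' (hS ▸ W'_mem)
  rw [θ_A] at hA
  rw [θ_W] at hW
  rw [θ_W'] at hW'
  obtain ⟨a1, c1, -, -, hu1, hv1⟩ := hA
  obtain ⟨a2, c2, -, -, hu2, hv2⟩ := hW
  obtain ⟨a3, c3, -, -, hu3, hv3⟩ := hW'
  have e1 := hu1 0
  have e2 := hv1 0
  have e3 := hv1 1
  have e4 := hu2 0
  have e5 := hv2 0
  have e6 := hv2 1
  have e7 := hu3 0
  have e8 := hv3 0
  have e9 := hv3 1
  simp only [qa, Xc, Yc, Matrix.cons_val_zero, Matrix.cons_val_one] at e1 e2 e3 e4 e5 e6 e7 e8 e9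
  generalize (θ g1).u 0 = p1 at *
  generalize (θ g1).v 0 = p2 at *
  generalize (θ g1).v 1 = p3 at *
  generalize (θ g2).u 0 = q1 at *
  generalize (θ g2).v 0 = q2 at *
  generalize (θ g2).v 1 = q3 at *
  have hdet : (a1 * p1 + c1 * q1) * ((a2 * p2 + c2 * q2) * (a3 * p3 + c3 * q3) -
      (a2 * p3 + c2 * q3) * (a3 * p2 + c3 * q2)) -
      (a1 * p2 + c1 * q2) * ((a2 * p1 + c2 * q1) * (a3 * p3 + c3 * q3) -
      (a2 * p3 + c2 * q3) * (a3 * p1 + c3 * q1)) +
      (a1 * p3 + c1 * q3) * ((a2 * p1 + c2 * q1) * (a3 * p2 + c3 * q2) -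
      (a2 * p2 + c2 * q2) * (a3 * p1 + c3 * q1)) = 0 := by ring
  rw [← e1, ← e2, ← e3, ← e4, ← e5, ← e6, ← e7, ← e8, ← e9] at hdet
  norm_num at hdet


/-! ### the main argument -/

/-- the exponents of `b₂` -/
theorem exp_cyclic (b : FreeGroupBasis (Fin 3) G) (h0 : (θ (b 0)).i = 0 ∧ (θ (b 0)).j = 0)
    (h1 : (θ (b 1)).i = 0 ∧ (θ (b 1)).j = 0) (g : G) :
    ∃ a : ℤ, (θ g).i = a * (θ (b 2)).i ∧ (θ g).j = a * (θ (b 2)).j := by
  have hg : g ∈ Subgroup.closure (Set.range b) := by rw [closure_basis]; trivial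
  induction hg using Subgroup.closure_induction with
  | mem x hx =>
    obtain ⟨k, rfl⟩ := hx
    fin_cases k
    · exact ⟨0, by simpa using h0.1, by simpa using h0.2⟩
    · exact ⟨0, by simpa using h1.1, by simpa using h1.2⟩
    · exact ⟨1, by simp, by simp⟩
  | one => exact ⟨0, by simp [one_i], by simp [one_j]⟩
  | mul x y _ _ hx hy =>
    obtain ⟨a, h1, h2⟩ := hx
    obtain ⟨c, h3, h4⟩ := hy
    refine ⟨a + c, ?_, ?_⟩
    · rw [map_mul, mul_i, h1, h3]; ring
    · rw [map_mul, mul_j, h2, h4]; ring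
  | inv x _ hx =>
    obtain ⟨a, h1, h2⟩ := hx
    refine ⟨-a, ?_, ?_⟩
    · rw [map_inv, inv_i, h1]; ring
    · rw [map_inv, inv_j, h2]; ring

theorem b1_ne (b : FreeGroupBasis (Fin 3) G) (h0 : (θ (b 0)).i = 0 ∧ (θ (b 0)).j = 0) :
    (θ (b 1)).i ≠ 0 ∨ (θ (b 1)).j ≠ 0 := by
  by_contra hcon
  push Not at hcon
  obtain ⟨a, h1, h2⟩ := exp_cyclic b h0 hcon B
  obtain ⟨c, h3, h4⟩ := exp_cyclic b h0 hcon C
  rw [θ_B] at h1 h2
  rw [θ_C] at h3 h4
  have h1' : (1 : ℤ) = a * (θ (b 2)).i := h1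
  have h2' : (0 : ℤ) = a * (θ (b 2)).j := h2
  have h3' : (0 : ℤ) = c * (θ (b 2)).i := h3
  have h4' : (1 : ℤ) = c * (θ (b 2)).j := h4
  have h5 : a ≠ 0 := by rintro rfl; simp at h1'
  have h6 : (θ (b 2)).j = 0 := by
    rcases mul_eq_zero.1 h2'.symm with h | h
    · exact absurd h h5
    · exact h
  rw [h6] at h4'
  simp at h4'

theorem val_eq {p q : ℕ} (hp : p.Prime) (hq : q.Prime) (hpq : p ≠ q) {i j : ℤ}
    (h : (p : ℚ) ^ i * (q : ℚ) ^ j = 1) : i = 0 := by
  have := Fact.mk hp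
  have hp0 : (p : ℚ) ≠ 0 := Nat.cast_ne_zero.2 hp.ne_zero
  have hq0 : (q : ℚ) ≠ 0 := Nat.cast_ne_zero.2 hq.ne_zero
  have h1 := congrArg (padicValRat p) h
  rw [padicValRat.mul (zpow_ne_zero _ hp0) (zpow_ne_zero _ hq0), padicValRat.zpow,
    padicValRat.zpow, padicValRat.one, padicValRat.self hp.one_lt, padicValRat.of_nat,
    padicValNat.eq_zero_of_not_dvd
      (fun hd => hpq ((Nat.prime_dvd_prime_iff_eq hp hq).1 hd))] at h1
  simpa using h1

theorem mon_ne_one {i j : ℤ} (h : i ≠ 0 ∨ j ≠ 0) (k : Fin 3) : mon i j k ≠ 1 := by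
  intro hm
  have key : ∀ p q : ℕ, p.Prime → q.Prime → p ≠ q → Xc k = p → Yc k = q → False := by
    intro p q hp hq hpq hX hY
    unfold mon at hm
    rw [hX, hY] at hm
    have h1 := val_eq hp hq hpq hm
    have h2 := val_eq hq hp hpq.symm (by rw [mul_comm]; exact hm)
    rcases h with h | h
    · exact h h1
    · exact h h2
  fin_cases k
  · exact key 2 3 (by norm_num) (by norm_num) (by norm_num) (by simp [Xc]) (by simp [Yc])
  · exact key 3 2 (by norm_num) (by norm_num) (by norm_num) (by simp [Xc]) (by simp [Yc])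
  · exact key 2 5 (by norm_num) (by norm_num) (by norm_num) (by simp [Xc]) (by simp [Yc])

/-- the structure of the elements of `⟨b₀, b₁⟩` -/
theorem two_gen (b : FreeGroupBasis (Fin 3) G) (h0 : (θ (b 0)).i = 0 ∧ (θ (b 0)).j = 0)
    (g : G) (hg : g ∈ Fl b 2) : ∃ α β : Fin 3 → ℚ, ∀ k,
    (θ g).u k = α k * (θ (b 0)).u k + β k * (θ (b 1)).u k ∧
    (θ g).v k = α k * (θ (b 0)).v k + β k * (θ (b 1)).v k ∧
    mon (θ g).i (θ g).j k - 1 = β k * (mon (θ (b 1)).i (θ (b 1)).j k - 1) := by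
  unfold Fl at hg
  induction hg using Subgroup.closure_induction with
  | mem x hx =>
    obtain ⟨k, hk, rfl⟩ := hx
    have hk' : k = 0 ∨ k = 1 := by
      rcases k with ⟨k, hk3⟩
      have : k = 0 ∨ k = 1 := by
        have hk2 : k < 2 := hk
        omega
      rcases this with rfl | rfl
      · exact Or.inl rfl
      · exact Or.inr rfl
    rcases hk' with rfl | rfl
    · refine ⟨fun _ => 1, fun _ => 0, fun k => ⟨by ring, by ring, ?_⟩⟩
      rw [h0.1, h0.2, mon_zero]; ring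
    · exact ⟨fun _ => 0, fun _ => 1, fun k => ⟨by ring, by ring, by ring⟩⟩
  | one =>
    refine ⟨fun _ => 0, fun _ => 0, fun k => ?_⟩
    rw [map_one, one_i, one_j, mon_zero, one_u, one_v]
    exact ⟨by ring, by ring, by ring⟩
  | mul x y _ _ hx hy =>
    obtain ⟨a, c, h⟩ := hx
    obtain ⟨a', c', h'⟩ := hy
    refine ⟨fun k => a k + mon (θ x).i (θ x).j k * a' k,
      fun k => c k + mon (θ x).i (θ x).j k * c' k, fun k => ?_⟩
    obtain ⟨h1, h2, h3⟩ := h k
    obtain ⟨h1', h2', h3'⟩ := h' k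
    rw [map_mul, mul_u, mul_v, mul_i, mul_j, mon_add, h1, h1', h2, h2']
    refine ⟨by ring, by ring, ?_⟩
    linear_combination h3 + mon (θ x).i (θ x).j k * h3'
  | inv x _ hx =>
    obtain ⟨a, c, h⟩ := hx
    refine ⟨fun k => -(mon (-(θ x).i) (-(θ x).j) k * a k),
      fun k => -(mon (-(θ x).i) (-(θ x).j) k * c k), fun k => ?_⟩
    obtain ⟨h1, h2, h3⟩ := h k
    rw [map_inv, inv_u, inv_v, inv_i, inv_j, h1, h2]
    refine ⟨by ring, by ring, ?_⟩
    have h4 := mon_neg (θ x).i (θ x).j k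
    linear_combination (-(mon (-(θ x).i) (-(θ x).j) k)) * h3 + h4

/-- powers of an element with trivial exponents -/
theorem pow_form (g : G) (h0 : (θ g).i = 0 ∧ (θ g).j = 0) (v : G)
    (hv : v ∈ Subgroup.closure {g}) (hv1 : v ≠ 1) :
    ∃ m : ℤ, m ≠ 0 ∧ ∀ k, (θ v).u k = m * (θ g).u k ∧ (θ v).v k = m * (θ g).v k := by
  rw [Subgroup.mem_closure_singleton] at hv
  obtain ⟨m, rfl⟩ := hv
  have hm : m ≠ 0 := by
    rintro rfl
    exact hv1 (zpow_zero g)
  refine ⟨m, hm, ?_⟩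
  have hN : ∀ n : ℕ, (θ (g ^ n)).i = 0 ∧ (θ (g ^ n)).j = 0 ∧ ∀ k,
      (θ (g ^ n)).u k = n * (θ g).u k ∧ (θ (g ^ n)).v k = n * (θ g).v k := by
    intro n
    induction n with
    | zero =>
      rw [pow_zero, map_one]
      exact ⟨one_i, one_j, fun k => ⟨by rw [one_u]; simp, by rw [one_v]; simp⟩⟩
    | succ n ih =>
      obtain ⟨h1, h2, h3⟩ := ih
      rw [pow_succ, map_mul, mul_i, mul_j, h1, h2, h0.1, h0.2]
      refine ⟨rfl, rfl, fun k => ?_⟩
      rw [mul_u, mul_v, (h3 k).1, (h3 k).2, h1, h2, mon_zero]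
      push_cast
      exact ⟨by ring, by ring⟩
  intro k
  rcases Int.eq_nat_or_neg m with ⟨n, rfl | rfl⟩
  · rw [zpow_natCast]
    obtain ⟨h1, h2, h3⟩ := hN n
    push_cast
    exact h3 k
  · rw [zpow_neg, zpow_natCast, map_inv, inv_u, inv_v]
    obtain ⟨h1, h2, h3⟩ := hN n
    rw [h1, h2, (h3 k).1, (h3 k).2, neg_zero, mon_zero]
    push_cast
    exact ⟨by ring, by ring⟩

theorem exp_zero (g : G) (v : G) (hv : v ∈ Subgroup.closure {g}) (hv1 : v ≠ 1)
    (h0 : (θ v).i = 0 ∧ (θ v).j = 0) : (θ g).i = 0 ∧ (θ g).j = 0 := by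
  rw [Subgroup.mem_closure_singleton] at hv
  obtain ⟨m, rfl⟩ := hv
  have hm : m ≠ 0 := by
    rintro rfl
    exact hv1 (zpow_zero g)
  let Ei : Q →* Multiplicative ℤ := MonoidHom.mk' (fun q => Multiplicative.ofAdd q.i)
    (fun a b => rfl)
  let Ej : Q →* Multiplicative ℤ := MonoidHom.mk' (fun q => Multiplicative.ofAdd q.j)
    (fun a b => rfl)
  have h1 : (θ (g ^ m)).i = m * (θ g).i := by
    have h2 : Ei (θ (g ^ m)) = (Ei (θ g)) ^ m := by rw [map_zpow, map_zpow]
    have h3 := congrArg Multiplicative.toAdd h2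
    rw [toAdd_zpow] at h3
    rw [← smul_eq_mul]
    exact h3
  have h1' : (θ (g ^ m)).j = m * (θ g).j := by
    have h2 : Ej (θ (g ^ m)) = (Ej (θ g)) ^ m := by rw [map_zpow, map_zpow]
    have h3 := congrArg Multiplicative.toAdd h2
    rw [toAdd_zpow] at h3
    rw [← smul_eq_mul]
    exact h3
  rw [h0.1] at h1
  rw [h0.2] at h1'
  exact ⟨(mul_eq_zero.1 h1.symm).resolve_left hm, (mul_eq_zero.1 h1'.symm).resolve_left hm⟩

/-- the subgroup `K` is not echelon in `G` -/
theorem K_not_echelon : ¬ IsEchelon K := by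
  classical
  rintro ⟨n, b, hform⟩
  have hn : n = 3 := by
    have h1 := n_le b
    have h2 := rk_le_of_form b K hform n le_rfl
    rw [Fl_top, inf_top_eq] at h2
    have h3 : (3 : ℕ∞) ≤ n := rk_K.trans h2
    have h4 : 3 ≤ n := by exact_mod_cast h3
    omega
  subst hn
  have hr2 : 2 ≤ rk (K ⊓ Fl b 2) := by
    have h1 := hform 2 (by norm_num)
    have h2 : rk (K ⊓ Fl b (2 + 1)) = rk K := by
      have : Fl b (2 + 1) = ⊤ := Fl_top b
      rw [this, inf_top_eq]
    rw [h2] at h1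
    have h3 := rk_K.trans h1
    have h4 : (2 : ℕ∞) + 1 ≤ rk (K ⊓ Fl b 2) + 1 := by
      refine le_trans ?_ h3
      norm_num
    exact (ENat.add_le_add_iff_right (by simp)).1 h4
  have hr1 : 1 ≤ rk (K ⊓ Fl b 1) := by
    have h1 := hform 1 (by norm_num)
    have h3 := hr2.trans h1
    have h4 : (1 : ℕ∞) + 1 ≤ rk (K ⊓ Fl b 1) + 1 := by
      refine le_trans ?_ h3
      norm_num
    exact (ENat.add_le_add_iff_right (by simp)).1 h4
  have hne : K ⊓ Fl b 1 ≠ ⊥ := by
    intro h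
    rw [h, rk_bot] at hr1
    exact absurd hr1 (by decide)
  obtain ⟨⟨v, hv⟩, hv1'⟩ := Subgroup.ne_bot_iff_exists_ne_one.1 hne
  have hv1 : v ≠ 1 := fun h => hv1' (Subtype.ext h)
  have hvK : v ∈ K := hv.1
  have hvc : v ∈ Subgroup.closure {b 0} := by
    have h1 := hv.2
    unfold Fl at h1
    have h2 : {g | ∃ k : Fin 3, (k : ℕ) < 1 ∧ b k = g} = {b 0} := by
      ext g
      constructor
      · rintro ⟨k, hk, rfl⟩
        have : k = 0 := by
          ext
          simpa using hk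
        subst this
        rfl
      · intro hg
        rw [Set.mem_singleton_iff] at hg
        exact ⟨0, by simp, hg.symm⟩
    rw [h2] at h1
    exact h1
  have hv2 : v ∈ K ⊓ Fl b 2 := by
    refine ⟨hvK, ?_⟩
    have h1 := hv.2
    unfold Fl at h1 ⊢
    refine Subgroup.closure_mono ?_ h1
    rintro g ⟨k, hk, rfl⟩
    exact ⟨k, by omega, rfl⟩
  -- the homomorphism
  have : IsFreeGroup G := b.isFreeGroup
  obtain ⟨φ, hφv, ⟨u, hu⟩, hφu⟩ := exists_hom (K ⊓ Fl b 2) hr2 v hv2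
  let φ' : G → Multiplicative ℚ := fun g => if h : g ∈ K ⊓ Fl b 2 then φ ⟨g, h⟩ else 1
  have hφ' : ∀ (g : G) (h : g ∈ K ⊓ Fl b 2), φ' g = φ ⟨g, h⟩ := fun g h => dif_pos h
  obtain ⟨ψ, hψ⟩ := extend b {k : Fin 3 | (k : ℕ) < 2} K φ' (by
    intro x hx y hy
    have hx' : x ∈ K ⊓ Fl b 2 := hx
    have hy' : y ∈ K ⊓ Fl b 2 := hy
    rw [hφ' x hx', hφ' y hy', hφ' (x * y) (mul_mem hx' hy'), ← map_mul]
    rfl)
  have hψv : ψ ⟨v, hvK⟩ = 1 := (hψ v hv2).trans ((hφ' v hv2).trans hφv)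
  have hψu : ψ ⟨u, hu.1⟩ ≠ 1 := by
    rw [hψ u hu, hφ' u hu]
    exact hφu
  -- coordinates
  obtain ⟨x', y', z', i1, i2, i3, i4, i5, i6, i7, i8, i9⟩ := coords ψ v hvK
  obtain ⟨x, y, z, j1, j2, j3, j4, j5, j6, j7, j8, j9⟩ := coords ψ u hu.1
  have hb0 := exp_zero (b 0) v hvc hv1 ⟨i1, i2⟩
  have hb1 := b1_ne b hb0
  obtain ⟨m, hm, hvm⟩ := pow_form (b 0) hb0 v hvc hv1
  obtain ⟨α, β, hαβ⟩ := two_gen b hb0 u hu.2
  have hβ : ∀ k, β k = 0 := by
    intro k
    have h1 := (hαβ k).2.2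
    rw [j1, j2, mon_zero, sub_self] at h1
    exact (mul_eq_zero.1 h1.symm).resolve_right (sub_ne_zero.2 (mon_ne_one hb1 k))
  have hu1 : ∀ k, (θ u).u k = α k * (θ (b 0)).u k := by
    intro k
    rw [(hαβ k).1, hβ k, zero_mul, add_zero]
  have hu2 : ∀ k, (θ u).v k = α k * (θ (b 0)).v k := by
    intro k
    rw [(hαβ k).2.1, hβ k, zero_mul, add_zero]
  have hdet : ∀ k, (θ u).u k * (θ v).v k - (θ u).v k * (θ v).u k = 0 := by
    intro k
    rw [hu1, hu2, (hvm k).1, (hvm k).2]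
    ring
  have d0 := hdet 0
  have d1 := hdet 1
  have d2 := hdet 2
  rw [i3, i6, j3, j6] at d0
  rw [i4, i7, j4, j7] at d1
  rw [i5, i8, j5, j8] at d2
  have hP1 : x * y' - x' * y = 0 := by linarith
  have hP2 : x * z' - x' * z = 0 := by linarith
  have hP3 : z * y' - z' * y = 0 := by linarith
  have hfin : (ψ ⟨u, hu.1⟩).toAdd = 0 := by
    rw [j9]
    have hv9 : x' * (ψ ⟨A, A_mem⟩).toAdd + y' * (ψ ⟨W, W_mem⟩).toAdd +
        z' * (ψ ⟨W', W'_mem⟩).toAdd = 0 := by
      rw [← i9, hψv, toAdd_one]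
    by_cases hx : x' = 0
    · by_cases hy : y' = 0
      · by_cases hz : z' = 0
        · -- all the coordinates of `v` vanish
          have hm' : (m : ℚ) ≠ 0 := Int.cast_ne_zero.2 hm
          have k0 : ∀ k, (θ v).u k = 0 ∧ (θ v).v k = 0 → (θ u).u k = 0 ∧ (θ u).v k = 0 := by
            rintro k ⟨h1, h2⟩
            rw [(hvm k).1] at h1
            rw [(hvm k).2] at h2
            rw [hu1, hu2, (mul_eq_zero.1 h1).resolve_left hm', (mul_eq_zero.1 h2).resolve_left hm']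
            simp
          have e0 := k0 0 ⟨by rw [i3, hx, hz]; ring, by rw [i6, hy, hz]; ring⟩
          have e1 := k0 1 ⟨by rw [i4, hx, hz]; ring, by rw [i7, hy, hz]; ring⟩
          rw [j3, j6] at e0
          rw [j4, j7] at e1
          have hz0 : z = 0 := by linarith [e0.1, e1.1]
          have hx0 : x = 0 := by linarith [e0.1]
          have hy0 : y = 0 := by linarith [e0.2]
          rw [hx0, hy0, hz0]
          ring
        · apply mul_left_cancel₀ hz
          linear_combination z * hv9 + (ψ ⟨A, A_mem⟩).toAdd * hP2 -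
            (ψ ⟨W, W_mem⟩).toAdd * hP3
      · apply mul_left_cancel₀ hy
        linear_combination y * hv9 + (ψ ⟨A, A_mem⟩).toAdd * hP1 +
            (ψ ⟨W', W'_mem⟩).toAdd * hP3
    · apply mul_left_cancel₀ hx
      linear_combination x * hv9 - (ψ ⟨W, W_mem⟩).toAdd * hP1 -
            (ψ ⟨W', W'_mem⟩).toAdd * hP2
  exact hψu hfin

end X137.Ech
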