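import Pool.Agent.X137.Ech.Rank

set_option autoImplicit false

namespace X137.Ech

/-! ### the target group -/

/-- the values of the first character variable -/
def Xc : Fin 3 → ℚ := ![2, 3, 2]
/-- the values of the second character variable -/
def Yc : Fin 3 → ℚ := ![3, 2, 5]

theorem Xc_ne (k : Fin 3) : Xc k ≠ 0 := by fin_cases k <;> norm_num [Xc]
theorem Yc_ne (k : Fin 3) : Yc k ≠ 0 := by fin_cases k <;> norm_num [Yc]

/-- the monomials -/
def mon (i j : ℤ) (k : Fin 3) : ℚ := Xc k ^ i * Yc k ^ j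

theorem mon_add (i j i' j' : ℤ) (k : Fin 3) :
    mon (i + i') (j + j') k = mon i j k * mon i' j' k := by
  unfold mon
  rw [zpow_add₀ (Xc_ne k), zpow_add₀ (Yc_ne k)]
  ring

theorem mon_zero (k : Fin 3) : mon 0 0 k = 1 := by simp [mon]

theorem mon_neg (i j : ℤ) (k : Fin 3) : mon (-i) (-j) k * mon i j k = 1 := by
  rw [← mon_add, neg_add_cancel, neg_add_cancel, mon_zero]

/-- the group -/
@[ext] structure Q where
  i : ℤ
  j : ℤ
  u : Fin 3 → ℚ
  v : Fin 3 → ℚ

instance : Mul Q := ⟨fun p q => ⟨p.i + q.i, p.j + q.j, fun k => p.u k + mon p.i p.j k * q.u k,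
  fun k => p.v k + mon p.i p.j k * q.v k⟩⟩
instance : One Q := ⟨⟨0, 0, fun _ => 0, fun _ => 0⟩⟩
instance : Inv Q := ⟨fun p => ⟨-p.i, -p.j, fun k => -(mon (-p.i) (-p.j) k * p.u k),
  fun k => -(mon (-p.i) (-p.j) k * p.v k)⟩⟩

theorem mul_i (p q : Q) : (p * q).i = p.i + q.i := rfl
theorem mul_j (p q : Q) : (p * q).j = p.j + q.j := rfl
theorem mul_u (p q : Q) (k : Fin 3) : (p * q).u k = p.u k + mon p.i p.j k * q.u k := rfl
theorem mul_v (p q : Q) (k : Fin 3) : (p * q).v k = p.v k + mon p.i p.j k * q.v k := rfl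
theorem one_i : (1 : Q).i = 0 := rfl
theorem one_j : (1 : Q).j = 0 := rfl
theorem one_u (k : Fin 3) : (1 : Q).u k = 0 := rfl
theorem one_v (k : Fin 3) : (1 : Q).v k = 0 := rfl
theorem inv_i (p : Q) : (p⁻¹).i = -p.i := rfl
theorem inv_j (p : Q) : (p⁻¹).j = -p.j := rfl
theorem inv_u (p : Q) (k : Fin 3) : (p⁻¹).u k = -(mon (-p.i) (-p.j) k * p.u k) := rfl
theorem inv_v (p : Q) (k : Fin 3) : (p⁻¹).v k = -(mon (-p.i) (-p.j) k * p.v k) := rfl

instance : Group Q where
  mul_assoc p q r := by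
    ext k
    · simp only [mul_i]; ring
    · simp only [mul_j]; ring
    · simp only [mul_u, mul_i, mul_j, mon_add]; ring
    · simp only [mul_v, mul_i, mul_j, mon_add]; ring
  one_mul p := by
    ext k
    · simp only [mul_i, one_i, zero_add]
    · simp only [mul_j, one_j, zero_add]
    · simp only [mul_u, one_i, one_j, one_u, mon_zero]; ring
    · simp only [mul_v, one_i, one_j, one_v, mon_zero]; ring
  mul_one p := by
    ext k
    · simp only [mul_i, one_i, add_zero]
    · simp only [mul_j, one_j, add_zero]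
    · simp only [mul_u, one_u]; ring
    · simp only [mul_v, one_v]; ring
  inv_mul_cancel p := by
    ext k
    · simp only [mul_i, inv_i, one_i, neg_add_cancel]
    · simp only [mul_j, inv_j, one_j, neg_add_cancel]
    · simp only [mul_u, inv_u, inv_i, inv_j, one_u]; ring
    · simp only [mul_v, inv_v, inv_i, inv_j, one_v]; ring

/-- the images of the basis of the subgroup of index two -/
def qa : Q := ⟨0, 0, fun _ => 1, fun _ => 0⟩
def qb : Q := ⟨1, 0, fun _ => 0, fun _ => 1⟩
def qc : Q := ⟨0, 1, fun _ => 0, fun _ => 0⟩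

/-! ### the groups -/

abbrev F : Type := FreeGroup (Fin 2)

def s : F := FreeGroup.of 0
def t : F := FreeGroup.of 1

/-- the subgroup `⟨s², t, s t s⁻¹⟩` of index two -/
def G : Subgroup F := Subgroup.closure {s * s, t, s * t * s⁻¹}

/-- the word `[t², s t s⁻¹]` -/
def w : F := t * t * (s * t * s⁻¹) * t⁻¹ * t⁻¹ * (s * t * s⁻¹)⁻¹

/-- the echelon subgroup `⟨s, w⟩` -/
def H : Subgroup F := Subgroup.closure {s, w}

/-- the subgroup `⟨s², w, s w s⁻¹⟩` -/
def K0 : Subgroup F := Subgroup.closure {s * s, w, s * w * s⁻¹}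

theorem a_mem : s * s ∈ G := Subgroup.subset_closure (by simp)
theorem b_mem : t ∈ G := Subgroup.subset_closure (by simp)
theorem c_mem : s * t * s⁻¹ ∈ G := Subgroup.subset_closure (by simp)

theorem w_mem : w ∈ G := by
  unfold w
  exact G.mul_mem (G.mul_mem (G.mul_mem (G.mul_mem (G.mul_mem b_mem b_mem) c_mem)
    (G.inv_mem b_mem)) (G.inv_mem b_mem)) (G.inv_mem c_mem)

/-- `s w s⁻¹` in terms of the generators of `G` -/
theorem w'_eq : s * w * s⁻¹ = (s * t * s⁻¹) * (s * t * s⁻¹) * ((s * s) * t * (s * s)⁻¹) *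
    (s * t * s⁻¹)⁻¹ * (s * t * s⁻¹)⁻¹ * ((s * s) * t * (s * s)⁻¹)⁻¹ := by
  unfold w
  group

theorem w'_mem : s * w * s⁻¹ ∈ G := by
  rw [w'_eq]
  have h1 : (s * s) * t * (s * s)⁻¹ ∈ G := G.mul_mem (G.mul_mem a_mem b_mem) (G.inv_mem a_mem)
  exact G.mul_mem (G.mul_mem (G.mul_mem (G.mul_mem (G.mul_mem c_mem c_mem) h1)
    (G.inv_mem c_mem)) (G.inv_mem c_mem)) (G.inv_mem h1)

theorem K0_le_G : K0 ≤ G := by
  unfold K0
  rw [Subgroup.closure_le]
  rintro x hx
  simp only [Set.mem_insert_iff, Set.mem_singleton_iff] at hx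
  rcases hx with rfl | rfl | rfl
  · exact a_mem
  · exact w_mem
  · exact w'_mem

/-- parity of the exponent of `s` -/
def par : F →* Multiplicative (ZMod 2) :=
  FreeGroup.lift fun i => if i = 0 then Multiplicative.ofAdd 1 else 1

theorem par_s : par s = Multiplicative.ofAdd 1 := by simp [par, s]
theorem par_t : par t = 1 := by simp [par, t]

theorem G_le_ker : G ≤ par.ker := by
  unfold G
  rw [Subgroup.closure_le]
  rintro x hx
  simp only [Set.mem_insert_iff, Set.mem_singleton_iff] at hx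
  rcases hx with rfl | rfl | rfl
  · change par (s * s) = 1
    rw [map_mul, par_s]; decide
  · exact par_t
  · change par (s * t * s⁻¹) = 1
    rw [map_mul, map_mul, map_inv, par_t, mul_one, mul_inv_cancel]

theorem H_cases (h : F) (hh : h ∈ H) : h ∈ K0 ∨ s * h ∈ K0 := by
  have ha : s * s ∈ K0 := Subgroup.subset_closure (by simp)
  have hw : w ∈ K0 := Subgroup.subset_closure (by simp)
  have hw' : s * w * s⁻¹ ∈ K0 := Subgroup.subset_closure (by simp)
  have hh' : h ∈ Subgroup.closure {s, w} := hh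
  induction hh' using Subgroup.closure_induction_left with
  | one => exact Or.inl (one_mem _)
  | mul_left x hx y hy ih =>
    simp only [Set.mem_insert_iff, Set.mem_singleton_iff] at hx
    rcases hx with rfl | rfl
    · rcases ih hy with h1 | h1
      · right
        rw [← mul_assoc]
        exact K0.mul_mem ha h1
      · exact Or.inl h1
    · rcases ih hy with h1 | h1
      · exact Or.inl (K0.mul_mem hw h1)
      · right
        have : s * (w * y) = (s * w * s⁻¹) * (s * y) := by group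
        rw [this]
        exact K0.mul_mem hw' h1
  | inv_mul_cancel x hx y hy ih =>
    simp only [Set.mem_insert_iff, Set.mem_singleton_iff] at hx
    rcases hx with rfl | rfl
    · rcases ih hy with h1 | h1
      · right
        rw [mul_inv_cancel_left]
        exact h1
      · left
        have : s⁻¹ * y = (s * s)⁻¹ * (s * y) := by group
        rw [this]
        exact K0.mul_mem (K0.inv_mem ha) h1
    · rcases ih hy with h1 | h1
      · exact Or.inl (K0.mul_mem (K0.inv_mem hw) h1)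
      · right
        have : s * (w⁻¹ * y) = (s * w * s⁻¹)⁻¹ * (s * y) := by group
        rw [this]
        exact K0.mul_mem (K0.inv_mem hw') h1

theorem inter_le (h : F) (h1 : h ∈ H) (h2 : h ∈ G) : h ∈ K0 := by
  rcases H_cases h h1 with h3 | h3
  · exact h3
  · exfalso
    have h4 := G_le_ker (K0_le_G h3)
    have h5 := G_le_ker h2
    rw [MonoidHom.mem_ker] at h4 h5
    rw [map_mul, h5, par_s, mul_one] at h4
    revert h4; decide

/-! ### the homomorphism `θ : G → Q` -/

/-- the permutation attached to `s` -/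
def ps : Equiv.Perm (Bool × Q) where
  toFun p := match p with
    | (false, q) => (true, qa * q)
    | (true, q) => (false, q)
  invFun p := match p with
    | (false, q) => (true, q)
    | (true, q) => (false, qa⁻¹ * q)
  left_inv p := by
    obtain ⟨_ | _, q⟩ := p
    · simp
    · rfl
  right_inv p := by
    obtain ⟨_ | _, q⟩ := p
    · rfl
    · simp

/-- the permutation attached to `t` -/
def pt : Equiv.Perm (Bool × Q) where
  toFun p := match p with
    | (false, q) => (false, qb * q)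
    | (true, q) => (true, qc * q)
  invFun p := match p with
    | (false, q) => (false, qb⁻¹ * q)
    | (true, q) => (true, qc⁻¹ * q)
  left_inv p := by
    obtain ⟨_ | _, q⟩ := p <;> simp
  right_inv p := by
    obtain ⟨_ | _, q⟩ := p <;> simp

/-- the action of `F` -/
def Φ : F →* Equiv.Perm (Bool × Q) := FreeGroup.lift fun i => if i = 0 then ps else pt

theorem Φ_s : Φ s = ps := by simp [Φ, s]
theorem Φ_t : Φ t = pt := by simp [Φ, t]

theorem Φ_a (q : Q) : Φ (s * s) (false, q) = (false, qa * q) := by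
  rw [map_mul, Φ_s]; rfl
theorem Φ_b (q : Q) : Φ t (false, q) = (false, qb * q) := by
  rw [Φ_t]; rfl
theorem Φ_c (q : Q) : Φ (s * t * s⁻¹) (false, q) = (false, qc * q) := by
  rw [map_mul, map_mul, map_inv, Φ_s, Φ_t]; rfl

theorem Φ_G (g : F) (hg : g ∈ G) : ∃ c : Q, ∀ q, Φ g (false, q) = (false, c * q) := by
  have hg' : g ∈ Subgroup.closure {s * s, t, s * t * s⁻¹} := hg
  induction hg' using Subgroup.closure_induction with
  | mem x hx =>
    simp only [Set.mem_insert_iff, Set.mem_singleton_iff] at hx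
    rcases hx with rfl | rfl | rfl
    · exact ⟨qa, Φ_a⟩
    · exact ⟨qb, Φ_b⟩
    · exact ⟨qc, Φ_c⟩
  | one => exact ⟨1, fun q => by simp⟩
  | mul x y hx' hy' hx hy =>
    obtain ⟨c, hc⟩ := hx hx'
    obtain ⟨d, hd⟩ := hy hy'
    exact ⟨c * d, fun q => by rw [map_mul, Equiv.Perm.mul_apply, hd, hc, mul_assoc]⟩
  | inv x hx' hx =>
    obtain ⟨c, hc⟩ := hx hx'
    refine ⟨c⁻¹, fun q => ?_⟩
    rw [map_inv, Equiv.Perm.inv_eq_iff_eq, hc, mul_inv_cancel_left]

/-- the homomorphism -/
def θ : G →* Q := MonoidHom.mk' (fun g => (Φ (g : F) (false, 1)).2) (by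
  intro g h
  obtain ⟨c, hc⟩ := Φ_G g g.2
  obtain ⟨d, hd⟩ := Φ_G h h.2
  change (Φ ((g : F) * (h : F)) (false, 1)).2 = _
  rw [map_mul, Equiv.Perm.mul_apply, hd, hc, hc]
  simp)

def A : G := ⟨s * s, a_mem⟩
def B : G := ⟨t, b_mem⟩
def C : G := ⟨s * t * s⁻¹, c_mem⟩
def W : G := ⟨w, w_mem⟩
def W' : G := ⟨s * w * s⁻¹, w'_mem⟩

theorem θ_A : θ A = qa := by
  change (Φ (s * s) (false, 1)).2 = _
  rw [Φ_a, mul_one]
theorem θ_B : θ B = qb := by
  change (Φ t (false, 1)).2 = _
  rw [Φ_b, mul_one]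
theorem θ_C : θ C = qc := by
  change (Φ (s * t * s⁻¹) (false, 1)).2 = _
  rw [Φ_c, mul_one]

theorem W_eq : W = B * B * C * B⁻¹ * B⁻¹ * C⁻¹ := rfl
theorem W'_eq : W' = C * C * (A * B * A⁻¹) * C⁻¹ * C⁻¹ * (A * B * A⁻¹)⁻¹ :=
  Subtype.ext w'_eq

theorem θ_W : θ W = ⟨0, 0, fun _ => 0, fun k => (1 + Xc k) * (1 - Yc k)⟩ := by
  rw [W_eq]
  simp only [map_mul, map_inv, θ_B, θ_C]
  have hx := Xc_ne
  have hy := Yc_ne
  ext k
  · simp [mul_i, inv_i, qb, qc]
  · simp [mul_j, inv_j, qb, qc]
  · simp [mul_u, inv_u, qb, qc]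
  · have := hx k
    have := hy k
    simp only [mul_v, mul_i, mul_j, inv_v, inv_i, inv_j, qb, qc, mon]
    simp
    field_simp
    ring

theorem θ_W' : θ W' = ⟨0, 0, fun k => (Yc k ^ 2 - 1) * (1 - Xc k), fun k => Yc k ^ 2 - 1⟩ := by
  rw [W'_eq]
  simp only [map_mul, map_inv, θ_A, θ_B, θ_C]
  have hx := Xc_ne
  have hy := Yc_ne
  ext k
  · simp [mul_i, inv_i, qb, qc, qa]
  · simp [mul_j, inv_j, qb, qc, qa]
  · have := hx k
    have := hy k
    simp only [mul_u, mul_i, mul_j, inv_u, inv_i, inv_j, qa, qb, qc, mon]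
    simp
    field_simp
    ring
  · have := hx k
    have := hy k
    simp only [mul_v, mul_i, mul_j, inv_v, inv_i, inv_j, qa, qb, qc, mon]
    simp
    field_simp
    ring

end X137.Ech
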