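import Pool.Agent.X137.Ech.Ext
import Pool.Agent.X137.Ech.Defs

set_option autoImplicit false

namespace X137.Ech

variable {Γ : Type} [Group Γ]

theorem rk_closure_le (S : Set Γ) : rk (Subgroup.closure S) ≤ S.encard :=
  iInf₂_le (f := fun (T : Set Γ) (_ : Subgroup.closure T = Subgroup.closure S) => T.encard) S rfl

theorem rk_bot : rk (⊥ : Subgroup Γ) = 0 := by
  have h := rk_closure_le (∅ : Set Γ)
  rw [Subgroup.closure_empty, Set.encard_empty] at h
  exact le_antisymm h bot_le

theorem one_le_rk (H : Subgroup Γ) (h : H ≠ ⊥) : 1 ≤ rk H := by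
  refine le_iInf₂ fun S hS => ?_
  rw [Set.one_le_encard_iff_nonempty]
  by_contra hcon
  rw [Set.not_nonempty_iff_eq_empty] at hcon
  apply h
  rw [← hS, hcon, Subgroup.closure_empty]

theorem Fl_zero {n : ℕ} (b : FreeGroupBasis (Fin n) Γ) : Fl b 0 = ⊥ := by
  unfold Fl
  have : {g | ∃ k : Fin n, (k : ℕ) < 0 ∧ b k = g} = ∅ := by
    ext g
    simp
  rw [this, Subgroup.closure_empty]

theorem Fl_eq_LL {n : ℕ} (b : FreeGroupBasis (Fin n) Γ) (i : ℕ) :
    Fl b i = LL b {k : Fin n | (k : ℕ) < i} := rfl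

theorem Fl_top {n : ℕ} (b : FreeGroupBasis (Fin n) Γ) : Fl b n = ⊤ := by
  rw [← closure_basis b]
  unfold Fl
  congr 1
  ext g
  constructor
  · rintro ⟨k, -, rfl⟩
    exact ⟨k, rfl⟩
  · rintro ⟨k, rfl⟩
    exact ⟨k, k.2, rfl⟩

theorem rk_le_of_form {n : ℕ} (b : FreeGroupBasis (Fin n) Γ) (K : Subgroup Γ)
    (h : InEchelonForm b K) : ∀ i ≤ n, rk (K ⊓ Fl b i) ≤ i := by
  intro i
  induction i with
  | zero =>
    intro _
    rw [Fl_zero, inf_bot_eq, rk_bot]
    simp
  | succ i ih =>
    intro hi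
    refine (h i (by omega)).trans ?_
    have := ih (by omega)
    push_cast
    gcongr

/-- a noncyclic subgroup of a free group has a homomorphism to the rationals that is not trivial
and kills a given element -/
theorem exists_hom [IsFreeGroup Γ] (K : Subgroup Γ) (h : 2 ≤ rk K) (v : Γ) (hv : v ∈ K) :
    ∃ φ : K →* Multiplicative ℚ, φ ⟨v, hv⟩ = 1 ∧ ∃ u : K, φ u ≠ 1 := by
  classical
  let X := IsFreeGroup.Generators K
  let B : FreeGroupBasis X K := IsFreeGroup.basis K
  have hns : ¬ Subsingleton X := by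
    intro hs
    have h1 : Subgroup.closure (K.subtype '' Set.range B) = K := by
      rw [← MonoidHom.map_closure, closure_basis B, ← MonoidHom.range_eq_map, K.range_subtype]
    have h2 : rk K ≤ 1 := by
      have h3 := rk_closure_le (K.subtype '' Set.range B)
      rw [h1] at h3
      refine h3.trans ((Set.encard_image_le _ _).trans ?_)
      rw [Set.encard_le_one_iff]
      rintro _ _ ⟨x, rfl⟩ ⟨y, rfl⟩
      rw [Subsingleton.elim x y]
    have h3 := h.trans h2
    exact absurd h3 (by decide)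
  rw [not_subsingleton_iff_nontrivial] at hns
  obtain ⟨i, j, hij⟩ := hns.exists_pair_ne
  let c : X → K →* Multiplicative ℚ := fun i =>
    B.lift fun x => if x = i then Multiplicative.ofAdd (1 : ℚ) else 1
  have hc : ∀ i x, c i (B x) = if x = i then Multiplicative.ofAdd (1 : ℚ) else 1 := by
    intro i x
    exact congrFun (B.lift.symm_apply_apply
      (fun x => if x = i then Multiplicative.ofAdd (1 : ℚ) else 1)) x
  let p : ℚ := (c i ⟨v, hv⟩).toAdd
  let q : ℚ := (c j ⟨v, hv⟩).toAdd
  by_cases hp : p = 0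
  · refine ⟨c i, ?_, B i, ?_⟩
    · exact hp
    · rw [hc, if_pos rfl]
      exact fun h => one_ne_zero (α := ℚ) h
  · let φ : K →* Multiplicative ℚ := MonoidHom.mk'
      (fun x => Multiplicative.ofAdd (q * (c i x).toAdd - p * (c j x).toAdd)) (by
        intro a b
        rw [map_mul (c i), map_mul (c j), toAdd_mul, toAdd_mul, ← ofAdd_add]
        congr 1
        ring)
    refine ⟨φ, ?_, B j, ?_⟩
    · change Multiplicative.ofAdd (q * p - p * q) = 1
      rw [mul_comm, sub_self]
      rfl
    · change Multiplicative.ofAdd (q * (c i (B j)).toAdd - p * (c j (B j)).toAdd) ≠ 1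
      rw [hc, hc, if_pos rfl, if_neg (Ne.symm hij)]
      intro h
      have h' : q * (1 : Multiplicative ℚ).toAdd - p * (1 : ℚ) = 0 := h
      rw [toAdd_one] at h'
      apply hp
      linarith

end X137.Ech
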